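import Mathlib

set_option autoImplicit false

/-!
Reduced clique graphs of chordal graphs contain induced cycles of every even length at least six.
-/

namespace Pool.Agent.Results.MP_0a00ee_co.LongInducedCycles

/-- `G` is chordal: it has no induced cycle with at least four vertices -/
def Chordal {V : Type} (G : SimpleGraph V) : Prop :=
  ∀ n : ℕ, 4 ≤ n → IsEmpty (SimpleGraph.cycleGraph n ↪g G)

/-- `K` is (the vertex set of) a maximal clique of `G` -/
def IsMaxClique {V : Type} (G : SimpleGraph V) (K : Set V) : Prop :=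
  Maximal (fun K : Set V => G.IsClique K) K

/-- the maximal cliques `K`, `K'` form a separating pair: they meet, and every path from a vertex of
`K \ K'` to a vertex of `K' \ K` meets `K ∩ K'` -/
def SeparatingPair {V : Type} (G : SimpleGraph V) (K K' : Set V) : Prop :=
  (K ∩ K').Nonempty ∧ ∀ u ∈ K \ K', ∀ v ∈ K' \ K, ∀ p : G.Walk u v, p.IsPath →
    ∃ z ∈ p.support, z ∈ K ∩ K'

lemma SeparatingPair.symm {V : Type} {G : SimpleGraph V} {K K' : Set V}
    (h : SeparatingPair G K K') : SeparatingPair G K' K := by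
  refine ⟨by rw [Set.inter_comm]; exact h.1, fun u hu v hv p hp => ?_⟩
  obtain ⟨z, hz, hzK⟩ := h.2 v hv u hu p.reverse hp.reverse
  rw [SimpleGraph.Walk.support_reverse, List.mem_reverse] at hz
  exact ⟨z, hz, hzK.2, hzK.1⟩

/-- the reduced clique graph of `G` -/
def reducedCliqueGraph {V : Type} (G : SimpleGraph V) :
    SimpleGraph {K : Set V // IsMaxClique G K} where
  Adj K K' := K ≠ K' ∧ SeparatingPair G K.1 K'.1
  symm := ⟨fun _ _ h => ⟨h.1.symm, h.2.symm⟩⟩
  loopless := ⟨fun _ h => h.1 rfl⟩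

/-! ### The example -/

/-- the centre vertex `i` is adjacent to the leaf vertex `a` -/
def In (m a i : ℕ) : Prop :=
  i = a / 2 ∨ (a % 2 = 1 ∧ i = if a / 2 + 1 = m then 0 else a / 2 + 1)

/-- a clique with `m` vertices; for each `i` a vertex of degree one adjacent to `i` (the leaf `2 i`)
and a vertex of degree two adjacent to `i` and `i + 1` modulo `m` (the leaf `2 i + 1`) -/
def ex (m : ℕ) : SimpleGraph (Fin m ⊕ Fin (2 * m)) where
  Adj x y :=
    match x, y with
    | .inl i, .inl j => i ≠ j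
    | .inl i, .inr a => In m a.1 i.1
    | .inr a, .inl i => In m a.1 i.1
    | .inr _, .inr _ => False
  symm := ⟨by
    rintro (i | a) (j | b) h
    · exact fun h' => h h'.symm
    · exact h
    · exact h
    · exact h⟩
  loopless := ⟨by
    rintro (i | a) h
    · exact h rfl
    · exact h⟩

lemma cyc_adj {n : ℕ} (hn : 3 ≤ n) (u v : Fin n) : (SimpleGraph.cycleGraph n).Adj u v ↔
    (u.1 = v.1 + 1 ∨ v.1 = u.1 + 1 ∨ (u.1 = 0 ∧ v.1 + 1 = n) ∨ (v.1 = 0 ∧ u.1 + 1 = n)) := by
  have hu := u.2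
  have hv := v.2
  have key : ∀ u v : Fin n, (u - v).val = 1 ↔ (u.1 = v.1 + 1 ∨ (u.1 = 0 ∧ v.1 + 1 = n)) := by
    intro u v
    have hu := u.2
    have hv := v.2
    rw [Fin.sub_def]
    simp only
    rcases Nat.lt_or_ge u.1 v.1 with h | h
    · rw [Nat.mod_eq_of_lt (by omega)]
      omega
    · have h1 : n - v.1 + u.1 = (u.1 - v.1) + n := by omega
      rw [h1, Nat.add_mod_right, Nat.mod_eq_of_lt (by omega)]
      omega
  rw [SimpleGraph.cycleGraph_adj', key, key]
  omega

lemma chordal_ex (m : ℕ) : Chordal (ex m) := by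
  intro n hn
  refine ⟨fun φ => ?_⟩
  have hadj : ∀ i j : Fin n, (ex m).Adj (φ i) (φ j) ↔
      (i.1 = j.1 + 1 ∨ j.1 = i.1 + 1 ∨ (i.1 = 0 ∧ j.1 + 1 = n) ∨ (j.1 = 0 ∧ i.1 + 1 = n)) := by
    intro i j
    rw [φ.map_adj_iff]
    exact cyc_adj (by omega) i j
  -- every vertex of the cycle has two nonadjacent neighbours
  have h2 : ∀ i : Fin n, ∃ p q : Fin n, φ p ≠ φ q ∧ ¬ (ex m).Adj (φ p) (φ q) ∧
      (ex m).Adj (φ i) (φ p) ∧ (ex m).Adj (φ i) (φ q) := by
    intro i
    have hi := i.2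
    obtain ⟨p, hp⟩ : ∃ p : Fin n, (i.1 = 0 ∧ p.1 + 1 = n) ∨ p.1 + 1 = i.1 := by
      by_cases h : i.1 = 0
      · exact ⟨⟨n - 1, by omega⟩, Or.inl ⟨h, by simp only; omega⟩⟩
      · exact ⟨⟨i.1 - 1, by omega⟩, Or.inr (by simp only; omega)⟩
    obtain ⟨q, hq⟩ : ∃ q : Fin n, (i.1 + 1 = n ∧ q.1 = 0) ∨ q.1 = i.1 + 1 := by
      by_cases h : i.1 + 1 = n
      · exact ⟨⟨0, by omega⟩, Or.inl ⟨h, rfl⟩⟩
      · exact ⟨⟨i.1 + 1, by omega⟩, Or.inr rfl⟩
    have hp2 := p.2
    have hq2 := q.2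
    refine ⟨p, q, ?_, ?_, ?_, ?_⟩
    · intro h
      have h1 := congrArg Fin.val (φ.injective h)
      omega
    · rw [hadj]
      omega
    · rw [hadj]
      omega
    · rw [hadj]
      omega
  have hcen : ∀ i : Fin n, ∃ c, φ i = Sum.inl c := by
    intro i
    rcases hi : φ i with c | a
    · exact ⟨c, rfl⟩
    · exfalso
      obtain ⟨p, q, h3, h4, h5, h6⟩ := h2 i
      rw [hi] at h5 h6
      apply h4
      rcases h7 : φ p with c | b
      · rcases h8 : φ q with c' | b'
        · intro h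
          exact h3 (by rw [h7, h8, h])
        · rw [h8] at h6
          exact h6.elim
      · rw [h7] at h5
        exact h5.elim
  obtain ⟨p, q, h3, h4, h5, h6⟩ := h2 ⟨0, by omega⟩
  obtain ⟨c, hc⟩ := hcen p
  obtain ⟨c', hc'⟩ := hcen q
  apply h4
  rw [hc, hc']
  intro h
  exact h3 (by rw [hc, hc', h])

/-- the maximal clique of the leaf `a` -/
def cl (m : ℕ) (a : Fin (2 * m)) : Set (Fin m ⊕ Fin (2 * m)) :=
  {x | x = Sum.inr a ∨ (ex m).Adj (Sum.inr a) x}

lemma inl_mem_cl {m : ℕ} {a : Fin (2 * m)} {i : Fin m} : Sum.inl i ∈ cl m a ↔ In m a.1 i.1 := by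
  constructor
  · rintro (h | h)
    · exact absurd h (by simp)
    · exact h
  · exact fun h => Or.inr h

lemma inr_mem_cl {m : ℕ} {a b : Fin (2 * m)} : Sum.inr b ∈ cl m a ↔ b = a := by
  constructor
  · rintro (h | h)
    · exact Sum.inr.inj h
    · exact h.elim
  · rintro rfl
    exact Or.inl rfl

lemma max_cl (m : ℕ) (a : Fin (2 * m)) : IsMaxClique (ex m) (cl m a) := by
  refine ⟨?_, ?_⟩
  · intro x hx y hy hxy
    rcases x with i | b <;> rcases y with j | c
    · exact fun h => hxy (by rw [h])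
    · rw [inr_mem_cl] at hy
      subst hy
      exact inl_mem_cl.1 hx
    · rw [inr_mem_cl] at hx
      subst hx
      exact inl_mem_cl.1 hy
    · rw [inr_mem_cl] at hx hy
      exact absurd (by rw [hx, hy]) hxy
  · intro K hK hsub x hx
    by_cases h : x = Sum.inr a
    · exact Or.inl h
    · exact Or.inr (hK (hsub (Or.inl rfl)) hx (fun h' => h h'.symm))

lemma sep_iff {m : ℕ} {a b : Fin (2 * m)} (hab : a ≠ b) :
    SeparatingPair (ex m) (cl m a) (cl m b) ↔
      (∀ i : Fin m, In m a.1 i.1 → In m b.1 i.1) ∨ (∀ i : Fin m, In m b.1 i.1 → In m a.1 i.1) := by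
  constructor
  · intro h
    by_contra hcon
    push Not at hcon
    obtain ⟨⟨i, hi, hi'⟩, j, hj, hj'⟩ := hcon
    have hij : i ≠ j := fun h => hi' (h ▸ hj)
    have hadj : (ex m).Adj (Sum.inl i) (Sum.inl j) := hij
    obtain ⟨z, hz, hz1, hz2⟩ := h.2 (Sum.inl i) ⟨inl_mem_cl.2 hi, fun h => hi' (inl_mem_cl.1 h)⟩
      (Sum.inl j) ⟨inl_mem_cl.2 hj, fun h => hj' (inl_mem_cl.1 h)⟩ hadj.toWalk
      (SimpleGraph.Walk.IsPath.of_adj hadj)
    simp only [SimpleGraph.Walk.support_cons, SimpleGraph.Walk.support_nil, List.mem_cons,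
      List.not_mem_nil, or_false] at hz
    rcases hz with rfl | rfl
    · exact hi' (inl_mem_cl.1 hz2)
    · exact hj' (inl_mem_cl.1 hz1)
  · -- one of the sets is contained in the other
    have key : ∀ a b : Fin (2 * m), a ≠ b → (∀ i : Fin m, In m a.1 i.1 → In m b.1 i.1) →
        SeparatingPair (ex m) (cl m a) (cl m b) := by
      intro a b hab hsub
      have ha := a.2
      have h0 : In m a.1 (⟨a.1 / 2, by omega⟩ : Fin m).1 := Or.inl rfl
      refine ⟨⟨Sum.inl ⟨a.1 / 2, by omega⟩, inl_mem_cl.2 h0, inl_mem_cl.2 (hsub _ h0)⟩, ?_⟩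
      rintro (i | c) ⟨hu, hu'⟩ v ⟨hv, hv'⟩ p _
      · exact absurd (inl_mem_cl.2 (hsub i (inl_mem_cl.1 hu))) hu'
      · rw [inr_mem_cl] at hu
        subst hu
        cases p with
        | nil => exact absurd (Or.inl rfl) hv'
        | @cons _ w _ hadj q =>
          rcases w with i | d
          · refine ⟨Sum.inl i, ?_, inl_mem_cl.2 hadj, inl_mem_cl.2 (hsub i hadj)⟩
            rw [SimpleGraph.Walk.support_cons]
            exact List.mem_cons_of_mem _ q.start_mem_support
          · exact hadj.elim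
    rintro (h | h)
    · exact key a b hab h
    · exact (key b a hab.symm h).symm

lemma comp_iff {m : ℕ} {a b : Fin (2 * m)} (hm : 3 ≤ m) (hab : a ≠ b) :
    ((∀ i : Fin m, In m a.1 i.1 → In m b.1 i.1) ∨ (∀ i : Fin m, In m b.1 i.1 → In m a.1 i.1)) ↔
      (a.1 = b.1 + 1 ∨ b.1 = a.1 + 1 ∨ (a.1 = 0 ∧ b.1 + 1 = 2 * m) ∨
        (b.1 = 0 ∧ a.1 + 1 = 2 * m)) := by
  have ha := a.2
  have hb := b.2
  have hab' : a.1 ≠ b.1 := fun h => hab (Fin.ext h)
  constructor
  · have key : ∀ a b : Fin (2 * m), a.1 ≠ b.1 → (∀ i : Fin m, In m a.1 i.1 → In m b.1 i.1) →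
        (a.1 = b.1 + 1 ∨ b.1 = a.1 + 1 ∨ (a.1 = 0 ∧ b.1 + 1 = 2 * m) ∨
        (b.1 = 0 ∧ a.1 + 1 = 2 * m)) := by
      intro a b hab' h
      have ha := a.2
      have hb := b.2
      have h1 : In m b.1 (a.1 / 2) := h ⟨a.1 / 2, by omega⟩ (Or.inl rfl)
      by_cases hodd : a.1 % 2 = 1
      · have h2 : In m b.1 (if a.1 / 2 + 1 = m then 0 else a.1 / 2 + 1) :=
          h ⟨if a.1 / 2 + 1 = m then 0 else a.1 / 2 + 1, by split_ifs <;> omega⟩
            (Or.inr ⟨hodd, rfl⟩)
        unfold In at h1 h2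
        by_cases hA : a.1 / 2 + 1 = m <;> by_cases hB : b.1 / 2 + 1 = m
        · omega
        · rw [if_neg hB] at h1 h2
          rw [if_pos hA] at h2
          omega
        · rw [if_pos hB] at h1 h2
          rw [if_neg hA] at h2
          omega
        · rw [if_neg hB] at h1 h2
          rw [if_neg hA] at h2
          omega
      · unfold In at h1
        split_ifs at h1 <;> omega
    rintro (h | h)
    · exact key a b hab' h
    · have := key b a hab'.symm h
      omega
  · intro h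
    by_cases hodd : a.1 % 2 = 1
    · right
      intro i hi
      have hi2 := i.2
      unfold In at hi ⊢
      split_ifs at hi ⊢ <;> omega
    · left
      intro i hi
      have hi2 := i.2
      unfold In at hi ⊢
      split_ifs at hi ⊢ <;> omega

/-- the induced cycle -/
noncomputable def cyc {m : ℕ} (hm : 3 ≤ m) :
    SimpleGraph.cycleGraph (2 * m) ↪g reducedCliqueGraph (ex m) where
  toFun a := ⟨cl m a, max_cl m a⟩
  inj' a b h := by
    have h1 : cl m a = cl m b := congrArg Subtype.val h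
    have h2 : Sum.inr a ∈ cl m b := h1 ▸ (Or.inl rfl : Sum.inr a ∈ cl m a)
    exact inr_mem_cl.1 h2
  map_rel_iff' := by
    intro a b
    have hab_iff : (a = b) ↔ cl m a = cl m b := by
      constructor
      · rintro rfl; rfl
      · intro h1
        have h2 : Sum.inr a ∈ cl m b := h1 ▸ (Or.inl rfl : Sum.inr a ∈ cl m a)
        exact inr_mem_cl.1 h2
    by_cases hab : a = b
    · subst hab
      simp
    · have h1 : (reducedCliqueGraph (ex m)).Adj ⟨cl m a, max_cl m a⟩ ⟨cl m b, max_cl m b⟩ ↔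
          SeparatingPair (ex m) (cl m a) (cl m b) := by
        refine ⟨fun h => h.2, fun h => ⟨fun h' => hab (hab_iff.2 (congrArg Subtype.val h')), h⟩⟩
      change (reducedCliqueGraph (ex m)).Adj ⟨cl m a, max_cl m a⟩ ⟨cl m b, max_cl m b⟩ ↔ _
      rw [h1, sep_iff hab, comp_iff hm hab, cyc_adj (by omega)]

/-- **Q1 is false.** For every `m ≥ 3` there is a finite chordal graph `G` such that the reduced
clique graph of `G` contains an induced cycle with `2 m` vertices. -/
theorem result :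
    (∀ m : ℕ, 3 ≤ m → ∃ (V : Type) (_ : Fintype V) (G : SimpleGraph V), Chordal G ∧
      Nonempty (SimpleGraph.cycleGraph (2 * m) ↪g reducedCliqueGraph G)) ∧
    ¬ ∀ (V : Type) [Fintype V] (G : SimpleGraph V), Chordal G → ∀ k : ℕ, 7 ≤ k →
      IsEmpty (SimpleGraph.cycleGraph k ↪g reducedCliqueGraph G) := by
  refine ⟨fun m hm => ⟨_, inferInstance, ex m, chordal_ex m, ⟨cyc hm⟩⟩, fun h => ?_⟩
  exact (h _ (ex 4) (chordal_ex 4) 8 (by norm_num)).false (cyc (m := 4) (by norm_num))

end Pool.Agent.Results.MP_0a00ee_co.LongInducedCycles
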